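import Pool.Agent.Helper59.MLF.Ext

/-!
# Extension of a point along a cyclic extension of prime degree of the function field
-/

set_option autoImplicit false

namespace Pool.Agent.MLF

open Polynomial

/-- `K = K0(s)`, `s ^ ℓ = d`, cyclic of degree `ℓ` -/
structure KumD {K0 K : Type*} [Field K0] [Field K] [Algebra K0 K] (ℓ : ℕ) (ζ d : K0) (s : K) :
    Prop where
  root : s ^ ℓ = algebraMap K0 K d
  gen : ∀ w : K, ∃ a : ℕ → K0, w = ∑ i ∈ Finset.range ℓ, algebraMap K0 K (a i) * s ^ i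
  aut : ∀ j : ℕ, ∃ σ : K →ₐ[K0] K, σ s = algebraMap K0 K (ζ ^ j) * s

theorem exists_kum59 {K0 : Type} [Field K0] {ℓ : ℕ} (hℓ : ℓ.Prime) {ζ : K0}
    (hζ : ζ ^ ℓ = 1) {d : K0} (hd : ∀ b : K0, b ^ ℓ ≠ d) :
    ∃ (K : Type) (_ : Field K) (_ : Algebra K0 K) (s : K), KumD ℓ ζ d s := by
  classical
  have hirr : Irreducible (X ^ ℓ - C d : K0[X]) := X_pow_sub_C_irreducible_of_prime hℓ hd
  have hfact : Fact (Irreducible (X ^ ℓ - C d : K0[X])) := ⟨hirr⟩
  have hmon : (X ^ ℓ - C d : K0[X]).Monic := monic_X_pow_sub_C d hℓ.ne_zero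
  have hroot : AdjoinRoot.root (X ^ ℓ - C d : K0[X]) ^ ℓ = algebraMap K0 _ d := by
    have h := AdjoinRoot.eval₂_root (X ^ ℓ - C d : K0[X])
    rw [eval₂_sub, eval₂_pow, eval₂_X, eval₂_C, sub_eq_zero] at h
    exact h
  refine ⟨AdjoinRoot (X ^ ℓ - C d : K0[X]), inferInstance, inferInstance,
    AdjoinRoot.root (X ^ ℓ - C d : K0[X]), hroot, fun w => ?_, fun j => ?_⟩
  · obtain ⟨p, rfl⟩ := AdjoinRoot.mk_surjective w
    refine ⟨fun i => (p %ₘ (X ^ ℓ - C d)).coeff i, ?_⟩
    have h1 : AdjoinRoot.mk (X ^ ℓ - C d) p = AdjoinRoot.mk (X ^ ℓ - C d) (p %ₘ (X ^ ℓ - C d)) := by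
      conv_lhs => rw [← modByMonic_add_div p (X ^ ℓ - C d)]
      rw [map_add, map_mul, AdjoinRoot.mk_self, zero_mul, add_zero]
    have h2 : (p %ₘ (X ^ ℓ - C d)).natDegree < ℓ := by
      have h3 := natDegree_modByMonic_lt p hmon (by
        intro h4
        have h5 := natDegree_X_pow_sub_C (n := ℓ) (r := d)
        rw [h4, natDegree_one] at h5
        exact hℓ.ne_zero h5.symm)
      rwa [natDegree_X_pow_sub_C] at h3
    rw [h1]
    conv_lhs => rw [Polynomial.as_sum_range' _ ℓ h2]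
    rw [map_sum]
    refine Finset.sum_congr rfl fun i _ => ?_
    rw [← C_mul_X_pow_eq_monomial, map_mul, map_pow, AdjoinRoot.mk_X, AdjoinRoot.mk_C]
    rfl
  · have h1 : aeval (algebraMap K0 (AdjoinRoot (X ^ ℓ - C d : K0[X])) (ζ ^ j) *
        AdjoinRoot.root (X ^ ℓ - C d : K0[X])) (X ^ ℓ - C d : K0[X]) = 0 := by
      rw [map_sub, map_pow, aeval_X, aeval_C, mul_pow, hroot, ← map_pow, ← pow_mul, mul_comm j,
        pow_mul, hζ, one_pow, map_one, one_mul, sub_self]
    refine ⟨AdjoinRoot.liftAlgHom (X ^ ℓ - C d)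
      (Algebra.ofId K0 (AdjoinRoot (X ^ ℓ - C d : K0[X])))
      (algebraMap K0 (AdjoinRoot (X ^ ℓ - C d : K0[X])) (ζ ^ j) *
        AdjoinRoot.root (X ^ ℓ - C d : K0[X])) h1, ?_⟩
    exact AdjoinRoot.liftAlgHom_root _ _ _ _

section

variable {K0 K F : Type*} [Field K0] [Field K] [Field F] [Algebra K0 K]

theorem sum_zero59 {ζ : K0} {ℓ i j : ℕ} (hζ : IsPrimitiveRoot ζ ℓ) (hi : i < ℓ) (hj : j < ℓ)
    (hij : i ≠ j) : ∑ n ∈ Finset.range ℓ, (ζ ^ (ℓ - i + j)) ^ n = 0 := by
  have h1 : ζ ^ (ℓ - i + j) ≠ 1 := by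
    rw [Ne, hζ.pow_eq_one_iff_dvd]
    rintro ⟨m, hm⟩
    rcases Nat.lt_or_ge m 2 with h2 | h2
    · interval_cases m
      · omega
      · omega
    · have h3 : ℓ * 2 ≤ ℓ * m := Nat.mul_le_mul_left _ h2
      omega
  have h2 : (ζ ^ (ℓ - i + j) - 1) * ∑ n ∈ Finset.range ℓ, (ζ ^ (ℓ - i + j)) ^ n = 0 := by
    rw [mul_geom_sum, ← pow_mul, mul_comm _ ℓ, pow_mul, hζ.pow_eq_one, one_pow, sub_self]
  exact (mul_eq_zero.1 h2).resolve_left (sub_ne_zero.2 h1)

/-- the components of an integral element are integral -/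
theorem comp_int59 (P0 : ValuationSubring K0) {ℓ : ℕ} (hℓ : 0 < ℓ) {ζ d : K0} {s : K}
    (hζ : IsPrimitiveRoot ζ ℓ) (hD : KumD ℓ ζ d s) (hℓP : ((ℓ : K0))⁻¹ ∈ P0)
    (hℓ0 : (ℓ : K0) ≠ 0) (a : ℕ → K0)
    (hw : IsIntegral P0 (∑ i ∈ Finset.range ℓ, algebraMap K0 K (a i) * s ^ i)) {i : ℕ}
    (hi : i < ℓ) : IsIntegral P0 (algebraMap K0 K (a i) * s ^ i) := by
  classical
  have hP : ∀ x ∈ P0, IsIntegral P0 (algebraMap K0 K x) := fun x hx =>
    isIntegral_algebraMap (R := P0) (A := K) (x := ⟨x, hx⟩)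
  have hζP : ζ ∈ P0 := by
    rw [← P0.valuation_le_one_iff]
    have h1 : P0.valuation ζ ^ ℓ = 1 := by rw [← map_pow, hζ.pow_eq_one, map_one]
    exact ((pow_eq_one_iff_of_nonneg zero_le hℓ.ne').1 h1).le
  choose σ hσ using hD.aut
  set w : K := ∑ i ∈ Finset.range ℓ, algebraMap K0 K (a i) * s ^ i with hwdef
  have h1 : ∑ n ∈ Finset.range ℓ, algebraMap K0 K ((ζ ^ (ℓ - i)) ^ n) * σ n w =
      algebraMap K0 K (ℓ : K0) * (algebraMap K0 K (a i) * s ^ i) := by
    have h2 : ∀ n, algebraMap K0 K ((ζ ^ (ℓ - i)) ^ n) * σ n w =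
        ∑ j ∈ Finset.range ℓ, algebraMap K0 K ((ζ ^ (ℓ - i + j)) ^ n) *
          (algebraMap K0 K (a j) * s ^ j) := by
      intro n
      rw [hwdef, map_sum, Finset.mul_sum]
      refine Finset.sum_congr rfl fun j _ => ?_
      rw [map_mul, map_pow (σ n) s j, AlgHom.commutes, hσ, mul_pow,
        ← map_pow (algebraMap K0 K) (ζ ^ n) j]
      have h3 : (ζ ^ (ℓ - i + j)) ^ n = (ζ ^ (ℓ - i)) ^ n * (ζ ^ n) ^ j := by
        rw [← pow_mul, ← pow_mul, ← pow_mul, ← pow_add]
        congr 1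
        ring
      rw [h3, map_mul]
      ring
    rw [Finset.sum_congr rfl fun n _ => h2 n, Finset.sum_comm]
    rw [Finset.sum_eq_single_of_mem i (Finset.mem_range.2 hi)]
    · rw [← Finset.sum_mul]
      congr 1
      rw [← map_sum]
      congr 1
      have h3 : ℓ - i + i = ℓ := by omega
      rw [h3, hζ.pow_eq_one]
      simp
    · intro j hj hji
      rw [← Finset.sum_mul, ← map_sum, sum_zero59 hζ hi (Finset.mem_range.1 hj) (Ne.symm hji),
        map_zero, zero_mul]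
  have h4 : algebraMap K0 K (a i) * s ^ i = algebraMap K0 K (ℓ : K0)⁻¹ *
      ∑ n ∈ Finset.range ℓ, algebraMap K0 K ((ζ ^ (ℓ - i)) ^ n) * σ n w := by
    rw [h1, ← mul_assoc, ← map_mul, inv_mul_cancel₀ hℓ0, map_one, one_mul]
  rw [h4]
  refine (hP _ hℓP).mul (IsIntegral.sum _ fun n _ => (hP _ (pow_mem (pow_mem hζP _) _)).mul ?_)
  exact hw.map ((σ n).restrictScalars P0)

theorem int_mem59 (P0 : ValuationSubring K0) {x : K0} (hx : IsIntegral P0 (algebraMap K0 K x)) :
    x ∈ P0 := by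
  have h1 : IsIntegral P0 x := (isIntegral_algebraMap_iff (algebraMap K0 K).injective).1 hx
  obtain ⟨y, hy⟩ := IsIntegrallyClosed.isIntegral_iff.1 h1
  rw [← hy]
  exact y.2

/-- the powers of the components -/
theorem comp_pow59 {ℓ : ℕ} {ζ d : K0} {s : K} (hD : KumD ℓ ζ d s) (x : K0) (i : ℕ) :
    (algebraMap K0 K x * s ^ i) ^ ℓ = algebraMap K0 K (x ^ ℓ * d ^ i) := by
  rw [mul_pow, ← pow_mul, mul_comm i ℓ, pow_mul, hD.root, map_mul, map_pow, map_pow]

theorem nonunit59 {P0 : ValuationSubring K0} {φ0 : P0 →+* F}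
    (hloc : ∀ x : P0, φ0 x ≠ 0 → (x : K0)⁻¹ ∈ P0) (x : P0) (hx : P0.valuation (x : K0) < 1) :
    φ0 x = 0 := by
  by_contra hne
  have h1 := (P0.valuation_le_one_iff _).2 (hloc x hne)
  rw [map_inv₀] at h1
  have h0 : P0.valuation (x : K0) ≠ 0 := by
    intro h0
    have h2 : (x : K0) = 0 := (Valuation.zero_iff _).1 h0
    have h3 : x = 0 := Subtype.ext h2
    rw [h3, map_zero] at hne
    exact hne rfl
  have h2 : 1 ≤ P0.valuation (x : K0) := (inv_le_one₀ (zero_lt_iff.2 h0)).1 h1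
  exact absurd hx (not_lt.2 h2)

/-- **Extension of a point along a cyclic extension.** -/
theorem ext_kum59 [Algebra.IsAlgebraic K0 K] (P0 : ValuationSubring K0) (φ0 : P0 →+* F)
    (hloc : ∀ x : P0, φ0 x ≠ 0 → (x : K0)⁻¹ ∈ P0) {ℓ : ℕ} (hℓ : ℓ.Prime) {ζ d : K0} {s : K}
    (hζ : IsPrimitiveRoot ζ ℓ) (hD : KumD ℓ ζ d s) (hℓP : ((ℓ : K0))⁻¹ ∈ P0)
    (hℓ0 : (ℓ : K0) ≠ 0) {ζ' : F} (hζ' : IsPrimitiveRoot ζ' ℓ)
    (hcase : (∀ z : K0, P0.valuation d ≠ P0.valuation z ^ ℓ) ∨
      ∃ (hd : d ∈ P0) (t : F), t ≠ 0 ∧ φ0 ⟨d, hd⟩ = t ^ ℓ) :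
    ∃ (P : ValuationSubring K) (φ : P →+* F),
      (∀ x : P0, ∃ hx : algebraMap K0 K x ∈ P, φ ⟨_, hx⟩ = φ0 x) ∧
      ∀ x : P, φ x ≠ 0 → (x : K)⁻¹ ∈ P := by
  classical
  let Ω := AlgebraicClosure F
  let φ1 : P0 →+* Ω := (algebraMap F Ω).comp φ0
  have hφ1 : ∀ x, φ1 x = algebraMap F Ω (φ0 x) := fun _ => rfl
  have hker : RingHom.ker φ1 = IsLocalRing.maximalIdeal P0 := by
    ext x
    rw [RingHom.mem_ker, hφ1, map_eq_zero, IsLocalRing.mem_maximalIdeal, mem_nonunits_iff]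
    constructor
    · intro h0 hu
      have h1 := hu.map φ0
      rw [h0] at h1
      exact not_isUnit_zero h1
    · intro h0
      by_contra hne
      apply h0
      have h1 := hloc x hne
      have hx0 : (x : K0) ≠ 0 := by
        intro h2
        have h3 : x = 0 := Subtype.ext h2
        rw [h3, map_zero] at hne
        exact hne rfl
      exact IsUnit.of_mul_eq_one ⟨_, h1⟩ (Subtype.ext (mul_inv_cancel₀ hx0))
  have hmax : (RingHom.ker φ1).IsMaximal := by
    rw [hker]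
    infer_instance
  have hinj : Function.Injective (algebraMap P0 (integralClosure P0 K)) := by
    intro x y hxy
    apply Subtype.ext
    apply (algebraMap K0 K).injective
    exact congrArg Subtype.val hxy
  obtain ⟨ψ1, hψ1⟩ := ext_hom59 (S := integralClosure P0 K) hinj φ1 hmax
  -- the values are in `F`
  have hrange : ∀ w : integralClosure P0 K, ∃ f : F, algebraMap F Ω f = ψ1 w := by
    rintro ⟨w, hw⟩
    obtain ⟨a, ha⟩ := hD.gen w
    have hcomp : ∀ i, i < ℓ → IsIntegral P0 (algebraMap K0 K (a i) * s ^ i) := by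
      intro i hi
      refine comp_int59 P0 hℓ.pos hζ hD hℓP hℓ0 a ?_ hi
      rw [← ha]
      exact hw
    have hsum : (⟨w, hw⟩ : integralClosure P0 K) = ∑ i : Fin ℓ,
        ⟨algebraMap K0 K (a i) * s ^ (i : ℕ), hcomp i i.2⟩ := by
      apply Subtype.ext
      rw [AddSubmonoidClass.coe_finsetSum]
      show w = ∑ i : Fin ℓ, algebraMap K0 K (a i) * s ^ (i : ℕ)
      rw [ha, Finset.sum_range]
    have hterm : ∀ i : Fin ℓ, ∃ f : F, algebraMap F Ω f =
        ψ1 ⟨algebraMap K0 K (a i) * s ^ (i : ℕ), hcomp i i.2⟩ := by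
      intro i
      obtain ⟨x, hx⟩ : ∃ x : integralClosure P0 K, x = ⟨algebraMap K0 K (a i) * s ^ (i : ℕ),
        hcomp i i.2⟩ := ⟨_, rfl⟩
      rw [← hx]
      have hxK : (x : K) = algebraMap K0 K (a i) * s ^ (i : ℕ) := by rw [hx]
      have hpow : ((x ^ ℓ : integralClosure P0 K) : K) =
          algebraMap K0 K (a i ^ ℓ * d ^ (i : ℕ)) := by
        rw [← comp_pow59 hD, ← hxK]
        rfl
      have hcP : a i ^ ℓ * d ^ (i : ℕ) ∈ P0 := by
        apply int_mem59 (K := K) P0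
        rw [← hpow]
        exact (x ^ ℓ).2
      have hpow' : x ^ ℓ = algebraMap P0 (integralClosure P0 K) ⟨_, hcP⟩ := Subtype.ext hpow
      have hψx : ψ1 x ^ ℓ = algebraMap F Ω (φ0 ⟨_, hcP⟩) := by
        rw [← map_pow, hpow', hψ1, hφ1]
      rcases hcase with hram | ⟨hd, t, ht0, ht⟩
      · by_cases hi0 : (i : ℕ) = 0
        · have hs0 : s ^ (i : ℕ) = 1 := by rw [hi0, pow_zero]
          have haP : a i ∈ P0 := by
            apply int_mem59 (K := K) P0
            have h1 := hcomp i i.2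
            rw [hs0, mul_one] at h1
            exact h1
          refine ⟨φ0 ⟨_, haP⟩, ?_⟩
          rw [← hφ1, ← hψ1]
          congr 1
          apply Subtype.ext
          rw [hxK, hs0, mul_one]
          rfl
        · -- the value is less than one
          have hlt : P0.valuation (a i ^ ℓ * d ^ (i : ℕ)) < 1 := by
            refine lt_of_le_of_ne ((P0.valuation_le_one_iff _).2 hcP) fun heq => ?_
            have ha0 : a i ≠ 0 := by
              intro h0
              rw [h0, zero_pow hℓ.ne_zero, zero_mul, map_zero] at heq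
              exact zero_ne_one heq
            have hd0 : d ≠ 0 := by
              rintro rfl
              rw [zero_pow hi0, mul_zero, map_zero] at heq
              exact zero_ne_one heq
            have hcop : Nat.Coprime i ℓ := by
              rw [Nat.coprime_comm]
              exact (Nat.Prime.coprime_iff_not_dvd hℓ).2 fun h1 =>
                absurd (Nat.le_of_dvd (Nat.pos_of_ne_zero hi0) h1) (not_le.2 i.2)
            obtain ⟨u, hu⟩ := Nat.exists_mul_mod_eq_one_of_coprime hcop hℓ.one_lt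
            have hu' : (i : ℕ) * u = ℓ * (i * u / ℓ) + 1 := by
              have h1 := Nat.div_add_mod ((i : ℕ) * u) ℓ
              rw [hu.2] at h1
              exact h1.symm
            obtain ⟨v, hv⟩ : ∃ v, v = (i : ℕ) * u / ℓ := ⟨_, rfl⟩
            rw [← hv] at hu'
            refine hram (((a i) ^ u * d ^ v)⁻¹) ?_
            have hVd : P0.valuation d ≠ 0 := (Valuation.ne_zero_iff _).2 hd0
            have hVa : P0.valuation (a i) ≠ 0 := (Valuation.ne_zero_iff _).2 ha0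
            have h2 : (P0.valuation (a i) ^ ℓ * P0.valuation d ^ (i : ℕ)) ^ u = 1 := by
              rw [← map_pow, ← map_pow, ← map_mul, heq, one_pow]
            rw [mul_pow, ← pow_mul, ← pow_mul, hu', pow_succ] at h2
            rw [map_inv₀, map_mul, map_pow, map_pow]
            rw [inv_pow, mul_pow, ← pow_mul, ← pow_mul]
            refine eq_inv_of_mul_eq_one_left ?_
            rw [← h2, mul_comm u ℓ, mul_comm v ℓ, mul_comm (P0.valuation d), mul_assoc]
          have h1 := nonunit59 hloc ⟨_, hcP⟩ hlt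
          rw [h1, map_zero] at hψx
          refine ⟨0, ?_⟩
          rw [map_zero]
          exact (pow_eq_zero_iff hℓ.ne_zero).1 hψx |>.symm
      · have hd0 : d ≠ 0 := by
          rintro rfl
          have h1 : φ0 ⟨0, hd⟩ = 0 := map_zero φ0
          rw [h1] at ht
          exact pow_ne_zero ℓ ht0 ht.symm
        have hdinv : d⁻¹ ∈ P0 := hloc ⟨d, hd⟩ (by rw [ht]; exact pow_ne_zero _ ht0)
        have haP : a i ∈ P0 := by
          have h1 : a i ^ ℓ ∈ P0 := by
            have h2 : a i ^ ℓ = a i ^ ℓ * d ^ (i : ℕ) * d⁻¹ ^ (i : ℕ) := by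
              rw [inv_pow, mul_assoc, mul_inv_cancel₀ (pow_ne_zero _ hd0), mul_one]
            rw [h2]
            exact mul_mem hcP (pow_mem hdinv _)
          rw [← P0.valuation_le_one_iff] at h1 ⊢
          rw [map_pow] at h1
          exact (pow_le_one_iff hℓ.ne_zero).1 h1
        have hsI : IsIntegral P0 s := by
          refine IsIntegral.of_pow hℓ.pos ?_
          rw [hD.root]
          exact isIntegral_algebraMap (R := P0) (A := K) (x := ⟨d, hd⟩)
        have hx2 : x = algebraMap P0 (integralClosure P0 K) ⟨_, haP⟩ *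
            (⟨s, hsI⟩ : integralClosure P0 K) ^ (i : ℕ) := by
          apply Subtype.ext
          rw [hxK]
          rfl
        have hs2 : (⟨s, hsI⟩ : integralClosure P0 K) ^ ℓ =
            algebraMap P0 (integralClosure P0 K) ⟨d, hd⟩ := Subtype.ext hD.root
        have ht0' : algebraMap F Ω t ≠ 0 := by
          rw [Ne, map_eq_zero]
          exact ht0
        have h1 : (ψ1 ⟨s, hsI⟩ / algebraMap F Ω t) ^ ℓ = 1 := by
          rw [div_pow, ← map_pow, hs2, hψ1, hφ1, ht, map_pow]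
          exact div_self (pow_ne_zero _ ht0')
        have h0 : NeZero ℓ := ⟨hℓ.ne_zero⟩
        obtain ⟨j, -, hj⟩ := (hζ'.map_of_injective (algebraMap F Ω).injective).eq_pow_of_pow_eq_one h1
        refine ⟨φ0 ⟨_, haP⟩ * (ζ' ^ j * t) ^ (i : ℕ), ?_⟩
        rw [hx2, map_mul, map_mul, map_pow, map_pow, hψ1, hφ1, map_mul, map_pow, hj,
          div_mul_cancel₀ _ ht0']
    choose f hf using hterm
    refine ⟨∑ i, f i, ?_⟩
    rw [hsum, map_sum, map_sum]
    exact Finset.sum_congr rfl fun i _ => hf i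
  choose g hg using hrange
  have hinjF := (algebraMap F Ω).injective
  let ψ : integralClosure P0 K →+* F :=
    { toFun := g
      map_one' := hinjF (by rw [hg, map_one, map_one])
      map_zero' := hinjF (by rw [hg, map_zero, map_zero])
      map_add' := fun x y => hinjF (by rw [hg, map_add, map_add, hg, hg])
      map_mul' := fun x y => hinjF (by rw [hg, map_mul, map_mul, hg, hg]) }
  have hψ : ∀ x : P0, ψ (algebraMap P0 (integralClosure P0 K) x) = φ0 x := by
    intro x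
    apply hinjF
    rw [← hφ1, ← hψ1]
    exact hg _
  obtain ⟨P, φ, h1, h2⟩ := ext_int59 (K := K) P0 ψ
  refine ⟨P, φ, fun x => ?_, h2⟩
  obtain ⟨h3, h4⟩ := h1 (algebraMap P0 (integralClosure P0 K) x)
  exact ⟨h3, by rw [← hψ x, ← h4]; rfl⟩

end

end Pool.Agent.MLF
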