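import Pool.Agent.Helper13.MLF.Defs
import Pool.Agent.Helper59.MLF.Kum

/-!
# MLF, blocks LPL and L2L: points on the twists
-/

set_option autoImplicit false

namespace Pool.Agent.MLF

open Polynomial
open Pool.Agent.Helper79.MP
open Pool.Agent.ML (HasMu)
open Pool.Agent.MPF (HasPoint)

/-- **BLOCK LPL** -/
theorem lPL : StmtLPL := by
  classical
  intro k K₀ F _ _ _ _ _ _ ℓ hℓ hμ h c hh hc
  obtain ⟨ξ, hξ⟩ := hμ
  have hℓk : (ℓ : k) ≠ 0 := Nat.cast_ne_zero.2 hℓ.ne_zero
  constructor
  · rintro ⟨K, _, _, _, _, y, hy, -, P', ψ, hψ⟩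
    obtain ⟨P1, ψ1, h3, h4⟩ := ext_local P' ψ
    -- the restriction to `K₀`
    let P : ValuationSubring K₀ := P1.comap (algebraMap K₀ K)
    have hP : ∀ x : K₀, x ∈ P ↔ algebraMap K₀ K x ∈ P1 := fun x => Iff.rfl
    let φ : P →+* F :=
      { toFun := fun x => ψ1 ⟨algebraMap K₀ K x, x.2⟩
        map_one' := by
          have : (⟨algebraMap K₀ K ((1 : P) : K₀), (1 : P).2⟩ : P1) = 1 := Subtype.ext (map_one _)
          rw [this, map_one]
        map_zero' := by
          have : (⟨algebraMap K₀ K ((0 : P) : K₀), (0 : P).2⟩ : P1) = 0 := Subtype.ext (map_zero _)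
          rw [this, map_zero]
        map_add' := fun x y => by
          rw [← map_add]
          congr 1
          exact Subtype.ext (map_add _ _ _)
        map_mul' := fun x y => by
          rw [← map_mul]
          congr 1
          exact Subtype.ext (map_mul _ _ _) }
    have hφ : ∀ x : P, φ x = ψ1 ⟨algebraMap K₀ K x, x.2⟩ := fun _ => rfl
    have hconst : ∀ a : k, ∃ h : algebraMap k K₀ a ∈ P,
        φ ⟨algebraMap k K₀ a, h⟩ = algebraMap k F a := by
      intro a
      obtain ⟨h5, h6⟩ := hψ a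
      obtain ⟨h7, h8⟩ := h3 ⟨_, h5⟩
      have h9 : algebraMap K₀ K (algebraMap k K₀ a) = algebraMap k K a :=
        (IsScalarTower.algebraMap_apply k K₀ K a).symm
      have h10 : algebraMap k K₀ a ∈ P := by
        rw [hP, h9]
        exact h7
      refine ⟨h10, ?_⟩
      rw [hφ, ← h6, ← h8]
      congr 1
      exact Subtype.ext h9
    have hloc : ∀ x : P, φ x = 0 ∨ (x : K₀)⁻¹ ∈ P := by
      intro x
      by_cases h0 : φ x = 0
      · exact Or.inl h0
      · refine Or.inr ?_
        have := h4 _ h0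
        rw [hP, map_inv₀]
        exact this
    refine ⟨P, φ, hconst, hloc, ?_⟩
    by_cases hodd : ∀ z : K₀, P.valuation h ≠ P.valuation z ^ ℓ
    · exact Or.inl hodd
    · push Not at hodd
      obtain ⟨z, hz⟩ := hodd
      have hz0 : z ≠ 0 := by
        rintro rfl
        rw [map_zero, zero_pow hℓ.ne_zero] at hz
        exact hh ((Valuation.zero_iff _).1 hz)
      have hVz : P.valuation z ≠ 0 := (Valuation.ne_zero_iff _).2 hz0
      have hg1 : P.valuation (h / z ^ ℓ) = 1 := by
        rw [map_div₀, map_pow, hz]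
        exact div_self (pow_ne_zero ℓ hVz)
      have hg : h / z ^ ℓ ∈ P := (P.valuation_le_one_iff _).1 hg1.le
      have hg' : (h / z ^ ℓ)⁻¹ ∈ P := (P.valuation_le_one_iff _).1 (by rw [map_inv₀, hg1, inv_one])
      have hgne : h / z ^ ℓ ≠ 0 := div_ne_zero hh (pow_ne_zero ℓ hz0)
      refine Or.inr ⟨z, ⟨h / z ^ ℓ, hg⟩, hz0, ?_, ?_, ?_⟩
      · change h = h / z ^ ℓ * z ^ ℓ
        rw [div_mul_cancel₀ _ (pow_ne_zero ℓ hz0)]
      · intro h0
        have h5 : φ ⟨h / z ^ ℓ, hg⟩ * φ ⟨(h / z ^ ℓ)⁻¹, hg'⟩ = 1 := by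
          rw [← map_mul, ← map_one φ]
          congr 1
          exact Subtype.ext (mul_inv_cancel₀ hgne)
        rw [h0, zero_mul] at h5
        exact zero_ne_one h5
      · -- the root
        obtain ⟨h5, h6⟩ := hconst c
        have hzK : algebraMap K₀ K z ≠ 0 := by
          rw [Ne, map_eq_zero]
          exact hz0
        have hw : (y / algebraMap K₀ K z) ^ ℓ =
            algebraMap K₀ K (algebraMap k K₀ c * (h / z ^ ℓ)) := by
          rw [div_pow, hy, map_mul, map_div₀, map_pow, ← IsScalarTower.algebraMap_apply k K₀ K,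
            mul_div_assoc]
        have hwP : y / algebraMap K₀ K z ∈ P1 := by
          have h7 : (y / algebraMap K₀ K z) ^ ℓ ∈ P1 := by
            rw [hw]
            exact P.mul_mem _ _ h5 hg
          rw [← ValuationSubring.valuation_le_one_iff] at h7 ⊢
          rw [map_pow] at h7
          exact (pow_le_one_iff hℓ.ne_zero).1 h7
        refine ⟨ψ1 ⟨_, hwP⟩, ?_⟩
        rw [← h6, ← map_mul, ← map_pow, hφ]
        congr 1
        refine Subtype.ext ?_
        change algebraMap K₀ K (algebraMap k K₀ c * (h / z ^ ℓ)) = (y / algebraMap K₀ K z) ^ ℓ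
        rw [hw]
  · rintro ⟨P, φ, hconst, hloc, hcase⟩
    have hloc' : ∀ x : P, φ x ≠ 0 → (x : K₀)⁻¹ ∈ P := fun x hx => (hloc x).resolve_left hx
    have hcK : algebraMap k K₀ c ≠ 0 := by
      rw [Ne, map_eq_zero]
      exact hc
    have hcV : P.valuation (algebraMap k K₀ c) = 1 := by
      have h5 := (P.valuation_le_one_iff _).2 (hconst c).1
      have h6 := (P.valuation_le_one_iff _).2 (hconst c⁻¹).1
      rw [map_inv₀, map_inv₀] at h6
      refine le_antisymm h5 ?_
      exact (inv_le_one₀ (zero_lt_iff.2 ((Valuation.ne_zero_iff _).2 hcK))).1 h6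
    have hξK : IsPrimitiveRoot (algebraMap k K₀ ξ) ℓ :=
      hξ.map_of_injective (algebraMap k K₀).injective
    have hξF : IsPrimitiveRoot (algebraMap k F ξ) ℓ :=
      hξ.map_of_injective (algebraMap k F).injective
    have hℓ0 : (ℓ : K₀) ≠ 0 := by
      rw [← map_natCast (algebraMap k K₀), Ne, map_eq_zero]
      exact hℓk
    have hℓP : ((ℓ : K₀))⁻¹ ∈ P := by
      have h5 := (hconst (ℓ : k)⁻¹).1
      rwa [map_inv₀, map_natCast] at h5
    -- the twist by `d`, `c h = d z ^ ℓ`
    obtain ⟨d, z, hz0, hdz, hd⟩ : ∃ d z : K₀, z ≠ 0 ∧ algebraMap k K₀ c * h = d * z ^ ℓ ∧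
        ((∀ z : K₀, P.valuation d ≠ P.valuation z ^ ℓ) ∨
          ∃ (hd : d ∈ P) (t : F), t ≠ 0 ∧ φ ⟨d, hd⟩ = t ^ ℓ) := by
      rcases hcase with hodd | ⟨z, g, hz, hg, hg0, r, hr⟩
      · refine ⟨algebraMap k K₀ c * h, 1, one_ne_zero, by rw [one_pow, mul_one], Or.inl ?_⟩
        intro z
        rw [map_mul, hcV, one_mul]
        exact hodd z
      · obtain ⟨h6, h7⟩ := hconst c
        refine ⟨algebraMap k K₀ c * g, z, hz, by rw [hg, mul_assoc], Or.inr ⟨mul_mem h6 g.2, r, ?_, ?_⟩⟩
        · rintro rfl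
          rw [zero_pow hℓ.ne_zero] at hr
          rcases mul_eq_zero.1 hr with h | h
          · rw [map_eq_zero] at h
            exact hc h
          · exact hg0 h
        · rw [← hr, ← h7, ← map_mul]
          rfl
    by_cases hsq : ∃ b : K₀, b ^ ℓ = d
    · -- the twist is `Y`
      obtain ⟨w, hw⟩ := hsq
      refine ⟨K₀, inferInstance, inferInstance, Algebra.id K₀, inferInstance, w * z, ?_, ?_, P, φ,
        hconst⟩
      · change (w * z) ^ ℓ = algebraMap k K₀ c * h
        rw [mul_pow, hw, hdz]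
      · rw [eq_top_iff]
        intro x _
        exact (IntermediateField.adjoin K₀ {w * z}).algebraMap_mem x
    · push Not at hsq
      obtain ⟨K, _, _, s, hD⟩ := exists_kum59 hℓ hξK.pow_eq_one hsq
      let _ : Algebra k K := ((algebraMap K₀ K).comp (algebraMap k K₀)).toAlgebra
      have hcomp : ∀ a : k, algebraMap k K a = algebraMap K₀ K (algebraMap k K₀ a) := fun _ => rfl
      have hzK : algebraMap K₀ K z ≠ 0 := by
        rw [Ne, map_eq_zero]
        exact hz0
      have halg : Algebra.IsAlgebraic K₀ K := ⟨fun x => by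
        obtain ⟨a, ha⟩ := hD.gen x
        have hs : IsIntegral K₀ s := by
          refine IsIntegral.of_pow hℓ.pos ?_
          rw [hD.root]
          exact isIntegral_algebraMap
        rw [ha]
        exact (IsIntegral.sum _ fun i _ => isIntegral_algebraMap.mul (hs.pow i)).isAlgebraic⟩
      obtain ⟨P', ψ, h5, -⟩ := ext_kum59 P φ hloc' hℓ hξK hD hℓP hℓ0 hξF hd
      refine ⟨K, inferInstance, inferInstance, inferInstance,
        IsScalarTower.of_algebraMap_eq' rfl, s * algebraMap K₀ K z, ?_, ?_, P', ψ, ?_⟩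
      · rw [mul_pow, hD.root, ← map_pow, ← map_mul, ← hdz, map_mul, hcomp]
      · rw [eq_top_iff]
        intro x _
        obtain ⟨a, rfl⟩ := hD.gen x
        have hsm : s ∈ IntermediateField.adjoin K₀ {s * algebraMap K₀ K z} := by
          have h6 : s * algebraMap K₀ K z * (algebraMap K₀ K z)⁻¹ = s := by
            rw [mul_assoc, mul_inv_cancel₀ hzK, mul_one]
          have h7 : s * algebraMap K₀ K z * (algebraMap K₀ K z)⁻¹ ∈
              IntermediateField.adjoin K₀ {s * algebraMap K₀ K z} :=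
            mul_mem (IntermediateField.subset_adjoin _ _ rfl)
              (inv_mem ((IntermediateField.adjoin K₀ {s * algebraMap K₀ K z}).algebraMap_mem z))
          rwa [h6] at h7
        exact sum_mem fun i _ => mul_mem
          ((IntermediateField.adjoin K₀ {s * algebraMap K₀ K z}).algebraMap_mem _) (pow_mem hsm i)
      · intro a
        obtain ⟨h6, h7⟩ := hconst a
        obtain ⟨h8, h9⟩ := h5 ⟨_, h6⟩
        refine ⟨h8, ?_⟩
        rw [← h7, ← h9]
        rfl

/-- **BLOCK L2L** -/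
theorem l2L : StmtL2L := by
  intro k K₀ F _ _ _ _ _ _ ℓ hℓ hμ h c c₀ hh hc hc₀ hsq hT
  rw [lPL k K₀ F ℓ hℓ hμ h c₀ hh hc₀] at hT
  rw [lPL k K₀ F ℓ hℓ hμ h c hh hc]
  obtain ⟨P, φ, h1, h2, h3⟩ := hT
  refine ⟨P, φ, h1, h2, h3.imp id ?_⟩
  rintro ⟨z, g, hz, hg, hg0, t, ht⟩
  obtain ⟨w, hw⟩ := hsq
  refine ⟨z, g, hz, hg, hg0, w * t, ?_⟩
  have h4 : algebraMap k F c * φ g = algebraMap k F (c₀⁻¹ * c) * (algebraMap k F c₀ * φ g) := by
    rw [← mul_assoc, ← map_mul]
    congr 2
    field_simp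
  rw [h4, hw, ht, mul_pow]

end Pool.Agent.MLF
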