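import Pool.Agent.Helper79.MP.Ext

/-!
# Extension of a point along a cyclic extension of prime degree of the function field

`K0` a field, `P0` a valuation ring of `K0`, `φ0 : P0 → F` a local homomorphism to a field,
`K = K0(s)`, `s ^ ℓ = d ∈ K0`.
-/

set_option autoImplicit false

namespace Pool.Agent.MLF

open Polynomial

/-- A root of a polynomial over an integrally closed ring `B`, not all coefficients of which are in
the kernel of `ψ`, or its inverse, is a fraction with denominator not in the kernel. -/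
theorem frac59 {B K F : Type*} [CommRing B] [Field K] [Field F] [Algebra B K]
    (hinj : Function.Injective (algebraMap B K))
    (hB : ∀ x : K, IsIntegral B x → ∃ b : B, algebraMap B K b = x) (ψ : B →+* F) (z : K) (n : ℕ) :
    ∀ q : B[X], q.natDegree ≤ n → aeval z q = 0 → q.map ψ ≠ 0 →
      (∃ r u : B, ψ u ≠ 0 ∧ z * algebraMap B K u = algebraMap B K r) ∨
        ∃ r u : B, ψ u ≠ 0 ∧ z⁻¹ * algebraMap B K u = algebraMap B K r := by
  induction n with
  | zero =>
    intro q hq h0 hne
    exfalso
    obtain ⟨b, rfl⟩ := Polynomial.natDegree_eq_zero.1 (Nat.le_zero.1 hq)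
    rw [aeval_C] at h0
    have h1 : b = 0 := hinj (by rw [h0, map_zero])
    rw [h1, map_zero, Polynomial.map_zero] at hne
    exact hne rfl
  | succ n ih =>
    intro q hq h0 hne
    by_cases hd : q.natDegree ≤ n
    · exact ih q hd h0 hne
    have hd' : q.natDegree = n + 1 := by omega
    have h1 : IsIntegral B (q.leadingCoeff • z) := isIntegral_leadingCoeff_smul q z h0
    obtain ⟨c, hc⟩ := hB _ h1
    rw [Algebra.smul_def] at hc
    by_cases hb : ψ q.leadingCoeff = 0
    swap
    · exact Or.inl ⟨c, q.leadingCoeff, hb, by rw [hc, mul_comm]⟩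
    by_cases hc' : ψ c = 0
    swap
    · refine Or.inr ⟨q.leadingCoeff, c, hc', ?_⟩
      have hz : z ≠ 0 := by
        rintro rfl
        rw [mul_zero] at hc
        have h2 : c = 0 := hinj (by rw [hc, map_zero])
        rw [h2, map_zero] at hc'
        exact hc' rfl
      rw [hc]
      field_simp
    have hlead : q.eraseLead + C q.leadingCoeff * X ^ (n + 1) = q := by
      have h2 := q.eraseLead_add_C_mul_X_pow
      rwa [hd'] at h2
    refine ih (q.eraseLead + C c * X ^ n) ?_ ?_ ?_
    · refine (natDegree_add_le _ _).trans (max_le ?_ (natDegree_C_mul_X_pow_le c n))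
      have h2 := q.eraseLead_natDegree_le
      omega
    · have h3 : aeval z (q.eraseLead + C q.leadingCoeff * X ^ (n + 1)) = 0 := by rw [hlead, h0]
      rw [map_add, map_mul, map_pow, aeval_C, aeval_X] at h3 ⊢
      rw [hc, ← h3]
      ring
    · have h2 : (q.eraseLead + C c * X ^ n).map ψ = q.map ψ := by
        conv_rhs => rw [← hlead]
        rw [Polynomial.map_add, Polynomial.map_add, Polynomial.map_mul, Polynomial.map_mul,
          map_C, map_C, hc', hb]
        simp
      rw [h2]
      exact hne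

/-- Every homomorphism from the integral closure of a valuation ring to a field extends to a place
of the overfield. -/
theorem ext_int59 {K0 K F : Type*} [Field K0] [Field K] [Field F] [Algebra K0 K]
    [Algebra.IsAlgebraic K0 K] (P0 : ValuationSubring K0) (ψ : integralClosure P0 K →+* F) :
    ∃ (P : ValuationSubring K) (φ : P →+* F),
      (∀ a : integralClosure P0 K, ∃ ha : (a : K) ∈ P, φ ⟨a, ha⟩ = ψ a) ∧
      ∀ x : P, φ x ≠ 0 → (x : K)⁻¹ ∈ P := by
  classical
  refine Pool.Agent.Helper79.MP.ext_loc (algebraMap (integralClosure P0 K) K)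
    (FaithfulSMul.algebraMap_injective _ _) ψ fun z => ?_
  -- a primitive polynomial
  obtain ⟨p, hp0, hpz⟩ := Algebra.IsAlgebraic.isAlgebraic (R := K0) z
  have hsup : p.support.Nonempty := by
    rw [Finset.nonempty_iff_ne_empty]
    intro h0
    exact hp0 (Polynomial.support_eq_empty.1 h0)
  obtain ⟨i, hi, hmax⟩ := p.support.exists_max_image (fun j => P0.valuation (p.coeff j)) hsup
  have hci : p.coeff i ≠ 0 := Polynomial.mem_support_iff.1 hi
  have hcoef : ∀ j, (p.coeff i)⁻¹ * p.coeff j ∈ P0 := by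
    intro j
    by_cases hj : j ∈ p.support
    · rw [← P0.valuation_le_one_iff, map_mul, map_inv₀]
      have h1 := hmax j hj
      have h2 : 0 < P0.valuation (p.coeff i) := zero_lt_iff.2 ((Valuation.ne_zero_iff _).2 hci)
      rw [← div_eq_inv_mul]
      exact (div_le_one₀ h2).2 h1
    · rw [Polynomial.notMem_support_iff.1 hj, mul_zero]
      exact P0.zero_mem
  let q : (integralClosure P0 K)[X] := ∑ j ∈ p.support,
    C (algebraMap P0 (integralClosure P0 K) ⟨_, hcoef j⟩) * X ^ j
  have hq0 : aeval z q = 0 := by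
    have h1 : aeval z q = algebraMap K0 K (p.coeff i)⁻¹ * aeval z p := by
      have h2 : aeval z p = ∑ j ∈ p.support, algebraMap K0 K (p.coeff j) * z ^ j := by
        rw [aeval_def, eval₂_eq_sum]
        rfl
      rw [h2, Finset.mul_sum, map_sum]
      refine Finset.sum_congr rfl fun j _ => ?_
      rw [map_mul, map_pow, aeval_C, aeval_X]
      have h3 : algebraMap (integralClosure P0 K) K
          (algebraMap P0 (integralClosure P0 K) ⟨_, hcoef j⟩) =
          algebraMap K0 K ((p.coeff i)⁻¹ * p.coeff j) := rfl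
      rw [h3, map_mul, mul_assoc]
    rw [h1, hpz, mul_zero]
  have hqi : q.coeff i = 1 := by
    have h1 : q.coeff i = ∑ j ∈ p.support, (if i = j then
        algebraMap P0 (integralClosure P0 K) ⟨_, hcoef j⟩ else 0) := by
      rw [Polynomial.finsetSum_coeff]
      refine Finset.sum_congr rfl fun j _ => ?_
      rw [coeff_C_mul_X_pow]
    rw [h1, Finset.sum_ite_eq, if_pos hi]
    apply Subtype.ext
    show algebraMap K0 K ((p.coeff i)⁻¹ * p.coeff i) = 1
    rw [inv_mul_cancel₀ hci, map_one]
  refine frac59 (FaithfulSMul.algebraMap_injective _ _) (fun x hx => ?_) ψ z q.natDegree q le_rfl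
    hq0 ?_
  · have h1 : IsIntegral P0 x := isIntegral_trans x hx
    exact ⟨⟨x, h1⟩, rfl⟩
  · intro h0
    have h1 : (q.map ψ).coeff i = 1 := by rw [coeff_map, hqi, map_one]
    rw [h0, coeff_zero] at h1
    exact zero_ne_one h1

/-- A homomorphism with maximal kernel to an algebraically closed field extends to an integral
extension. -/
theorem ext_hom59 {R S Ω : Type*} [CommRing R] [CommRing S] [Algebra R S] [Algebra.IsIntegral R S]
    [Field Ω] [IsAlgClosed Ω] (hinj : Function.Injective (algebraMap R S)) (φ : R →+* Ω)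
    (hφ : (RingHom.ker φ).IsMaximal) : ∃ ψ : S →+* Ω, ∀ r, ψ (algebraMap R S r) = φ r := by
  classical
  obtain ⟨Q, hQ, hQc⟩ := Ideal.exists_ideal_over_maximal_of_isIntegral (S := S) (RingHom.ker φ) (by
    rw [(RingHom.injective_iff_ker_eq_bot _).1 hinj]
    exact bot_le)
  let _ : Field (R ⧸ RingHom.ker φ) := Ideal.Quotient.field _
  let _ : Field (S ⧸ Q) := Ideal.Quotient.field _
  let i : R ⧸ RingHom.ker φ →+* S ⧸ Q := Ideal.quotientMap Q (algebraMap R S) hQc.ge
  let j : R ⧸ RingHom.ker φ →+* Ω := RingHom.kerLift φ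
  let _ : Algebra (R ⧸ RingHom.ker φ) (S ⧸ Q) := i.toAlgebra
  let _ : Algebra (R ⧸ RingHom.ker φ) Ω := j.toAlgebra
  have hi : ∀ r : R, i (Ideal.Quotient.mk _ r) = Ideal.Quotient.mk Q (algebraMap R S r) :=
    fun r => rfl
  have halg : Algebra.IsAlgebraic (R ⧸ RingHom.ker φ) (S ⧸ Q) := ⟨fun x => by
    obtain ⟨s, rfl⟩ := Ideal.Quotient.mk_surjective x
    obtain ⟨p, hp, hps⟩ := Algebra.IsIntegral.isIntegral (R := R) s
    refine IsIntegral.isAlgebraic ⟨p.map (Ideal.Quotient.mk _), hp.map _, ?_⟩
    rw [eval₂_map]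
    have h1 : (algebraMap (R ⧸ RingHom.ker φ) (S ⧸ Q)).comp (Ideal.Quotient.mk _) =
        (Ideal.Quotient.mk Q).comp (algebraMap R S) := by
      ext r
      exact hi r
    rw [h1, ← Polynomial.hom_eval₂, hps, map_zero]⟩
  let lf : (S ⧸ Q) →ₐ[R ⧸ RingHom.ker φ] Ω := IsAlgClosed.lift
  refine ⟨(lf : (S ⧸ Q) →+* Ω).comp (Ideal.Quotient.mk Q), fun r => ?_⟩
  have h1 : lf (algebraMap (R ⧸ RingHom.ker φ) (S ⧸ Q) (Ideal.Quotient.mk _ r)) =
      algebraMap (R ⧸ RingHom.ker φ) Ω (Ideal.Quotient.mk _ r) := lf.commutes _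
  exact h1

end Pool.Agent.MLF
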